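import Pool.Agent.W759.FD.Defs

/-!
# The two-space lemma
-/

set_option autoImplicit false

namespace Pool.Agent.W766.FD

open MeasureTheory ProbabilityTheory Set Filter
open scoped ENNReal Topology
open Pool.Agent.W759.FD

universe u

theorem bdd_int {Ω : Type*} [MeasurableSpace Ω] (P : Measure Ω) [IsProbabilityMeasure P]
    (f : Ω → ℝ) (hf : Measurable f) (C : ℝ) (hb : ∀ x, |f x| ≤ C) : Integrable f P :=
  Integrable.of_bound hf.aestronglyMeasurable C (Eventually.of_forall fun x => by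
    rw [Real.norm_eq_abs]; exact hb x)

theorem abs_int_le {Ω : Type*} [MeasurableSpace Ω] (P : Measure Ω) [IsProbabilityMeasure P]
    (f : Ω → ℝ) (hb : ∀ x, |f x| ≤ 1) : |∫ x, f x ∂P| ≤ 1 := by
  have h := norm_integral_le_of_norm_le_const (μ := P) (f := f) (C := 1)
    (Eventually.of_forall fun x => by rw [Real.norm_eq_abs]; exact hb x)
  rw [Real.norm_eq_abs] at h
  simpa using h

/-- Dominated convergence for bounded sequences. -/
theorem dct {Ω : Type*} [MeasurableSpace Ω] (P : Measure Ω) [IsProbabilityMeasure P]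
    (f : ℕ → Ω → ℝ) (hf : ∀ c, Measurable (f c)) (C : ℝ) (hb : ∀ c x, |f c x| ≤ C)
    (hlim : ∀ x, Tendsto (fun c => f c x) atTop (𝓝 0)) :
    Tendsto (fun c => ∫ x, f c x ∂P) atTop (𝓝 0) := by
  have h := tendsto_integral_of_dominated_convergence (μ := P) (F := f) (f := fun _ => (0 : ℝ))
    (fun _ => C) (fun c => (hf c).aestronglyMeasurable) (integrable_const C)
    (fun c => Eventually.of_forall fun x => by rw [Real.norm_eq_abs]; exact hb c x)
    (Eventually.of_forall fun x => hlim x)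
  simpa using h

theorem mul1 {a b : ℝ} (ha : |a| ≤ 1) (hb : |b| ≤ 1) : |a * b| ≤ 1 := by
  rw [abs_mul]
  exact mul_le_one₀ ha (abs_nonneg _) hb

theorem tendA {X Y : Type*} [MeasurableSpace X] [MeasurableSpace Y] (μ : Measure X)
    (ν : Measure Y) [IsProbabilityMeasure μ] [IsProbabilityMeasure ν]
    (κ : X → ℝ) (ξ : ℕ → X → ℝ) (hκ : Measurable κ) (hκ1 : ∀ x, |κ x| ≤ 1)
    (hξ : ∀ c, Measurable (ξ c)) (hξ1 : ∀ c x, |ξ c x| ≤ 1)
    (hlim : ∀ w : X → ℝ, Measurable w → (∀ x, |w x| ≤ 1) →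
      Tendsto (fun c => ∫ x, w x * κ x * ξ c x ∂μ) atTop (𝓝 0))
    (g : ℕ → Y → ℝ) (hg : ∀ c, Measurable (g c)) (hg1 : ∀ c y, |g c y| ≤ 1)
    (G : X × Y → ℝ) (hG : Measurable G) (hG1 : ∀ p, |G p| ≤ 1) :
    Tendsto (fun c => ∫ p, g c p.2 * (G p * κ p.1 * ξ c p.1) ∂(μ.prod ν)) atTop (𝓝 0) := by
  have hmi : ∀ c, Measurable (fun p : X × Y => G p * κ p.1 * ξ c p.1) := fun c =>
    (hG.mul (hκ.comp measurable_fst)).mul ((hξ c).comp measurable_fst)
  have hmeas : ∀ c, Measurable (fun p : X × Y => g c p.2 * (G p * κ p.1 * ξ c p.1)) := fun c =>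
    ((hg c).comp measurable_snd).mul (hmi c)
  have hbi : ∀ c (p : X × Y), |G p * κ p.1 * ξ c p.1| ≤ 1 := fun c p =>
    mul1 (mul1 (hG1 _) (hκ1 _)) (hξ1 _ _)
  have hb : ∀ c (p : X × Y), |g c p.2 * (G p * κ p.1 * ξ c p.1)| ≤ 1 := fun c p =>
    mul1 (hg1 _ _) (hbi c p)
  have heq : ∀ c, ∫ p, g c p.2 * (G p * κ p.1 * ξ c p.1) ∂(μ.prod ν) =
      ∫ y, g c y * ∫ x, G (x, y) * κ x * ξ c x ∂μ ∂ν := by
    intro c
    rw [integral_prod_symm _ (bdd_int _ _ (hmeas c) 1 (hb c))]
    refine integral_congr_ae (Eventually.of_forall fun y => ?_)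
    simp only
    rw [integral_const_mul]
  simp only [heq]
  refine dct ν (fun c y => g c y * ∫ x, G (x, y) * κ x * ξ c x ∂μ) ?_ 1 ?_ ?_
  · intro c
    refine (hg c).mul ?_
    exact (StronglyMeasurable.integral_prod_left' (μ := μ) (hmi c).stronglyMeasurable).measurable
  · intro c y
    exact mul1 (hg1 _ _) (abs_int_le _ _ fun x => hbi c (x, y))
  · intro y
    have h1 := hlim (fun x => G (x, y)) (hG.comp (measurable_id.prodMk measurable_const))
      (fun x => hG1 _)
    refine squeeze_zero_norm (fun c => ?_) (by simpa using h1.abs)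
    rw [Real.norm_eq_abs, abs_mul]
    exact mul_le_of_le_one_left (abs_nonneg _) (hg1 c y)

theorem abs_sign {x : ℝ} (h : IsSign x) : |x| = 1 := by
  rcases h with h | h <;> rw [h] <;> norm_num

theorem sq_sign {x : ℝ} (h : IsSign x) : x * x = 1 := by
  rcases h with h | h <;> rw [h] <;> norm_num

theorem t2 : P2.{u} := by
  intro L R _ _ μ ν _ _ κ κ' ξ α η β ψ hκ hκ' hκb hκ'b hξ hη hξs hηs hαs hβs hψ hrel hL hR
  obtain ⟨D, hDdef⟩ : ∃ D : L × R → ℝ, D = ψ.indicator (fun _ => (1 : ℝ)) := ⟨_, rfl⟩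
  have hD : Measurable D := by
    rw [hDdef]
    exact measurable_const.indicator hψ
  have hD1 : ∀ q, q ∈ ψ → D q = 1 := by
    intro q hq
    rw [hDdef, indicator_of_mem hq]
  have hD0 : ∀ q, q ∉ ψ → D q = 0 := by
    intro q hq
    rw [hDdef, indicator_of_notMem hq]
  have hD01 : ∀ q, 0 ≤ D q ∧ D q ≤ 1 := by
    intro q
    by_cases hq : q ∈ ψ
    · rw [hD1 q hq]; norm_num
    · rw [hD0 q hq]; norm_num
  have hDa : ∀ q, |D q| ≤ 1 := fun q => by
    rw [abs_of_nonneg (hD01 q).1]; exact (hD01 q).2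
  have hκa : ∀ l, |κ l| ≤ 1 := fun l => by
    rw [abs_of_nonneg (hκb l).1]; exact (hκb l).2
  have hκ'a : ∀ r, |κ' r| ≤ 1 := fun r => by
    rw [abs_of_nonneg (hκ'b r).1]; exact (hκ'b r).2
  have hξa : ∀ c l, |ξ c l| ≤ 1 := fun c l => (abs_sign (hξs c l)).le
  have hηa : ∀ c r, |η c r| ≤ 1 := fun c r => (abs_sign (hηs c r)).le
  -- the kernel
  have hk3 : Measurable (fun z : (R × R) × L => D (z.2, z.1.1) * D (z.2, z.1.2) * κ z.2) := by
    refine Measurable.mul (Measurable.mul ?_ ?_) ?_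
    · exact hD.comp (measurable_snd.prodMk (measurable_fst.comp measurable_fst))
    · exact hD.comp (measurable_snd.prodMk (measurable_snd.comp measurable_fst))
    · exact hκ.comp measurable_snd
  have hk3b : ∀ (p : R × R) (l : L), |D (l, p.1) * D (l, p.2) * κ l| ≤ 1 := fun p l =>
    mul1 (mul1 (hDa _) (hDa _)) (hκa _)
  obtain ⟨v, hv⟩ : ∃ v : R × R → ℝ, ∀ p, v p = ∫ l, D (l, p.1) * D (l, p.2) * κ l ∂μ :=
    ⟨_, fun _ => rfl⟩
  obtain ⟨U, hU⟩ : ∃ U : ℕ → R × R → ℝ, ∀ c p,
      U c p = ∫ l, D (l, p.1) * D (l, p.2) * κ l * ξ c l ∂μ := ⟨_, fun _ _ => rfl⟩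
  have hvm : Measurable v := by
    have h := (StronglyMeasurable.integral_prod_right' (ν := μ) hk3.stronglyMeasurable).measurable
    have h2 : v = fun p : R × R => ∫ l, D (l, p.1) * D (l, p.2) * κ l ∂μ := funext hv
    rw [h2]
    exact h
  have hUm : ∀ c, Measurable (U c) := by
    intro c
    have h := (StronglyMeasurable.integral_prod_right' (ν := μ)
      (hk3.mul ((hξ c).comp measurable_snd)).stronglyMeasurable).measurable
    have h2 : U c = fun p : R × R => ∫ l, D (l, p.1) * D (l, p.2) * κ l * ξ c l ∂μ :=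
      funext (hU c)
    rw [h2]
    exact h
  have hv0 : ∀ p, 0 ≤ v p := by
    intro p
    rw [hv]
    exact integral_nonneg fun l => mul_nonneg (mul_nonneg (hD01 _).1 (hD01 _).1) (hκb _).1
  have hva : ∀ p, |v p| ≤ 1 := by
    intro p
    rw [hv]
    exact abs_int_le _ _ (hk3b p)
  have hUa : ∀ c p, |U c p| ≤ 1 := by
    intro c p
    rw [hU]
    exact abs_int_le _ _ fun l => mul1 (hk3b p l) (hξa c l)
  have hU0 : ∀ p, Tendsto (fun c => U c p) atTop (𝓝 0) := by
    intro p
    have h := hL (fun l => D (l, p.1) * D (l, p.2))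
      ((hD.comp (measurable_id.prodMk measurable_const)).mul
        (hD.comp (measurable_id.prodMk measurable_const)))
      (fun l => mul1 (hDa _) (hDa _))
    simpa only [hU] using h
  -- the key inequality
  have key : ∀ c (p : R × R), 0 ≤ (1 + η c p.1) * (1 - η c p.2) * v p ∧
      (1 + η c p.1) * (1 - η c p.2) * v p ≤ 4 * |U c p| := by
    intro c p
    rcases hηs c p.1 with h1 | h1
    · rcases hηs c p.2 with h2 | h2
      · rw [h1, h2]
        constructor
        · norm_num
        · have := abs_nonneg (U c p)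
          nlinarith
      · have h3 : U c p = β c p.1 * β c p.2 * v p := by
          rw [hU, hv, ← integral_const_mul]
          refine integral_congr_ae (Eventually.of_forall fun l => ?_)
          simp only
          by_cases hm1 : (l, p.1) ∈ ψ
          · by_cases hm2 : (l, p.2) ∈ ψ
            · have e1 := hrel c l p.1 hm1
              have e2 := hrel c l p.2 hm2
              rw [h1] at e1
              rw [h2] at e2
              unfold chsh at e1 e2
              have e3 := sq_sign (hαs c l)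
              have e4 : β c p.1 * β c p.2 = ξ c l := by
                calc β c p.1 * β c p.2 = (α c l * α c l) * (β c p.1 * β c p.2) := by
                      rw [e3, one_mul]
                  _ = (α c l * β c p.1) * (α c l * β c p.2) := by ring
                  _ = ξ c l := by rw [e1, e2]; ring
              rw [e4]
              ring
            · rw [hD0 _ hm2]
              ring
          · rw [hD0 _ hm1]
            ring
        have h4 : |U c p| = v p := by
          rw [h3, abs_mul, abs_mul, abs_sign (hβs c p.1), abs_sign (hβs c p.2),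
            abs_of_nonneg (hv0 p)]
          ring
        rw [h1, h2, h4]
        have := hv0 p
        constructor
        · nlinarith
        · nlinarith
    · rw [h1]
      have := abs_nonneg (U c p)
      constructor
      · norm_num
      · nlinarith
  -- the weight
  obtain ⟨F, hF⟩ : ∃ F : R × R → ℝ, ∀ p, F p = κ' p.1 * κ' p.2 * v p := ⟨_, fun _ => rfl⟩
  have hFm : Measurable F := by
    have h2 : F = fun p : R × R => κ' p.1 * κ' p.2 * v p := funext hF
    rw [h2]
    exact ((hκ'.comp measurable_fst).mul (hκ'.comp measurable_snd)).mul hvm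
  have hFa : ∀ p, |F p| ≤ 1 := fun p => by
    rw [hF]
    exact mul1 (mul1 (hκ'a _) (hκ'a _)) (hva _)
  have hη1 : ∀ c, Measurable (fun p : R × R => η c p.1) := fun c => (hη c).comp measurable_fst
  have hη2 : ∀ c, Measurable (fun p : R × R => η c p.2) := fun c => (hη c).comp measurable_snd
  have hI : Tendsto (fun c => ∫ p, F p * ((1 + η c p.1) * (1 - η c p.2)) ∂(ν.prod ν)) atTop
      (𝓝 0) := by
    have hdom : Tendsto (fun c => ∫ p, 4 * |U c p| ∂(ν.prod ν)) atTop (𝓝 0) := by
      refine dct (ν.prod ν) (fun c p => 4 * |U c p|) (fun c => (hUm c).abs.const_mul 4) 4 ?_ ?_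
      · intro c p
        rw [abs_mul, abs_abs]
        have := hUa c p
        rw [abs_of_nonneg (by norm_num : (0 : ℝ) ≤ 4)]
        linarith
      · intro p
        have h := ((hU0 p).abs).const_mul 4
        simpa using h
    have hmI : ∀ c, Measurable (fun p : R × R => F p * ((1 + η c p.1) * (1 - η c p.2))) :=
      fun c => hFm.mul ((measurable_const.add (hη1 c)).mul (measurable_const.sub (hη2 c)))
    have hle : ∀ c (p : R × R), 0 ≤ F p * ((1 + η c p.1) * (1 - η c p.2)) ∧
        F p * ((1 + η c p.1) * (1 - η c p.2)) ≤ 4 * |U c p| := by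
      intro c p
      have hk := key c p
      have h0 : 0 ≤ κ' p.1 * κ' p.2 := mul_nonneg (hκ'b _).1 (hκ'b _).1
      have h1 : κ' p.1 * κ' p.2 ≤ 1 :=
        mul_le_one₀ (hκ'b _).2 (hκ'b _).1 (hκ'b _).2
      have he : F p * ((1 + η c p.1) * (1 - η c p.2)) =
          (κ' p.1 * κ' p.2) * ((1 + η c p.1) * (1 - η c p.2) * v p) := by
        rw [hF]; ring
      rw [he]
      constructor
      · exact mul_nonneg h0 hk.1
      · exact le_trans (mul_le_of_le_one_left hk.1 h1) hk.2
    refine squeeze_zero (fun c => integral_nonneg fun p => (hle c p).1) (fun c => ?_) hdom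
    refine integral_mono ?_ ?_ fun p => (hle c p).2
    · refine bdd_int _ _ (hmI c) 4 fun p => ?_
      rw [abs_of_nonneg (hle c p).1]
      have := hUa c p
      linarith [(hle c p).2]
    · refine bdd_int _ _ ((hUm c).abs.const_mul 4) 4 fun p => ?_
      rw [abs_mul, abs_abs]
      have := hUa c p
      rw [abs_of_nonneg (by norm_num : (0 : ℝ) ≤ 4)]
      linarith
  have hDd : Tendsto (fun c => ∫ p, F p * (η c p.1 * η c p.2) ∂(ν.prod ν)) atTop (𝓝 0) := by
    have h := tendA ν ν κ' η hκ' hκ'a hη hηa hR η hη hηa (fun p => κ' p.2 * v p)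
      ((hκ'.comp measurable_snd).mul hvm) (fun p => mul1 (hκ'a _) (hva _))
    refine h.congr fun c => integral_congr_ae (Eventually.of_forall fun p => ?_)
    simp only
    rw [hF]
    ring
  have hsymm : ∀ p : R × R, F p.swap = F p := by
    intro p
    rw [hF, hF, hv, hv]
    simp only [Prod.fst_swap, Prod.snd_swap]
    have h5 : (∫ l, D (l, p.2) * D (l, p.1) * κ l ∂μ) = ∫ l, D (l, p.1) * D (l, p.2) * κ l ∂μ :=
      integral_congr_ae (Eventually.of_forall fun l => by simp only; ring)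
    rw [h5]
    ring
  have hAB : ∀ c, ∫ p, F p * η c p.2 ∂(ν.prod ν) = ∫ p, F p * η c p.1 ∂(ν.prod ν) := by
    intro c
    rw [← integral_prod_swap (μ := ν) (ν := ν) (fun p : R × R => F p * η c p.2)]
    refine integral_congr_ae (Eventually.of_forall fun p => ?_)
    simp only [hsymm, Prod.snd_swap]
  have hV : ∀ c, ∫ p, F p ∂(ν.prod ν) =
      ∫ p, F p * ((1 + η c p.1) * (1 - η c p.2)) ∂(ν.prod ν) +
        ∫ p, F p * (η c p.1 * η c p.2) ∂(ν.prod ν) := by
    intro c
    have i0 : Integrable F (ν.prod ν) := bdd_int _ _ hFm 1 hFa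
    have i1 : Integrable (fun p : R × R => F p * η c p.1) (ν.prod ν) :=
      bdd_int _ _ (hFm.mul (hη1 c)) 1 fun p => mul1 (hFa p) (hηa _ _)
    have i2 : Integrable (fun p : R × R => F p * η c p.2) (ν.prod ν) :=
      bdd_int _ _ (hFm.mul (hη2 c)) 1 fun p => mul1 (hFa p) (hηa _ _)
    have i3 : Integrable (fun p : R × R => F p * (η c p.1 * η c p.2)) (ν.prod ν) :=
      bdd_int _ _ (hFm.mul ((hη1 c).mul (hη2 c))) 1 fun p => mul1 (hFa p) (mul1 (hηa _ _) (hηa _ _))
    have he : (fun p : R × R => F p * ((1 + η c p.1) * (1 - η c p.2))) =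
        fun p => ((F p + F p * η c p.1) - F p * η c p.2) - F p * (η c p.1 * η c p.2) := by
      funext p
      ring
    have e1 : ∫ p, F p * ((1 + η c p.1) * (1 - η c p.2)) ∂(ν.prod ν) =
        ∫ p, (((F p + F p * η c p.1) - F p * η c p.2) - F p * (η c p.1 * η c p.2))
          ∂(ν.prod ν) := by rw [he]
    have e2 : ∫ p, (((F p + F p * η c p.1) - F p * η c p.2) - F p * (η c p.1 * η c p.2))
          ∂(ν.prod ν) =
        ∫ p, ((F p + F p * η c p.1) - F p * η c p.2) ∂(ν.prod ν) -
          ∫ p, F p * (η c p.1 * η c p.2) ∂(ν.prod ν) := integral_sub ((i0.add i1).sub i2) i3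
    have e3 : ∫ p, ((F p + F p * η c p.1) - F p * η c p.2) ∂(ν.prod ν) =
        ∫ p, (F p + F p * η c p.1) ∂(ν.prod ν) - ∫ p, F p * η c p.2 ∂(ν.prod ν) :=
      integral_sub (i0.add i1) i2
    have e4 : ∫ p, (F p + F p * η c p.1) ∂(ν.prod ν) =
        ∫ p, F p ∂(ν.prod ν) + ∫ p, F p * η c p.1 ∂(ν.prod ν) := integral_add i0 i1
    rw [e1, e2, e3, e4, hAB c]
    ring
  have hV0 : ∫ p, F p ∂(ν.prod ν) = 0 := by
    have h := hI.add hDd
    rw [add_zero] at h
    have h2 : Tendsto (fun _ : ℕ => ∫ p, F p ∂(ν.prod ν)) atTop (𝓝 0) :=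
      h.congr fun c => (hV c).symm
    exact tendsto_nhds_unique tendsto_const_nhds h2
  -- Fubini
  obtain ⟨g, hg⟩ : ∃ g : L → ℝ, ∀ l, g l = ∫ r, κ' r * D (l, r) ∂ν := ⟨_, fun _ => rfl⟩
  have hgm : Measurable g := by
    have h := (StronglyMeasurable.integral_prod_right' (ν := ν)
      (f := fun z : L × R => κ' z.2 * D z)
      ((hκ'.comp measurable_snd).mul hD).stronglyMeasurable).measurable
    have h2 : g = fun l : L => ∫ r, κ' r * D (l, r) ∂ν := funext hg
    rw [h2]
    exact h
  have hg0 : ∀ l, 0 ≤ g l := fun l => by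
    rw [hg]
    exact integral_nonneg fun r => mul_nonneg (hκ'b _).1 (hD01 _).1
  have hga : ∀ l, |g l| ≤ 1 := fun l => by
    rw [hg]
    exact abs_int_le _ _ fun r => mul1 (hκ'a _) (hDa _)
  have hFub : ∫ p, F p ∂(ν.prod ν) = ∫ l, κ l * (g l * g l) ∂μ := by
    have e1 : ∫ p, F p ∂(ν.prod ν) = ∫ p : R × R, (∫ l, κ' p.1 * κ' p.2 *
        (D (l, p.1) * D (l, p.2) * κ l) ∂μ) ∂(ν.prod ν) := by
      refine integral_congr_ae (Eventually.of_forall fun p => ?_)
      simp only
      rw [integral_const_mul, hF, hv]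
    have hm : Measurable (fun z : (R × R) × L => κ' z.1.1 * κ' z.1.2 *
        (D (z.2, z.1.1) * D (z.2, z.1.2) * κ z.2)) := by
      refine Measurable.mul (Measurable.mul ?_ ?_) hk3
      · exact hκ'.comp (measurable_fst.comp measurable_fst)
      · exact hκ'.comp (measurable_snd.comp measurable_fst)
    have hi : Integrable (Function.uncurry fun (p : R × R) (l : L) => κ' p.1 * κ' p.2 *
        (D (l, p.1) * D (l, p.2) * κ l)) ((ν.prod ν).prod μ) :=
      bdd_int _ _ hm 1 fun z => mul1 (mul1 (hκ'a _) (hκ'a _)) (hk3b z.1 z.2)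
    rw [e1, integral_integral_swap hi]
    refine integral_congr_ae (Eventually.of_forall fun l => ?_)
    simp only
    have e2 : ∀ p : R × R, κ' p.1 * κ' p.2 * (D (l, p.1) * D (l, p.2) * κ l) =
        κ l * ((κ' p.1 * D (l, p.1)) * (κ' p.2 * D (l, p.2))) := fun p => by ring
    rw [integral_congr_ae (Eventually.of_forall e2), integral_const_mul,
      integral_prod_mul (fun r => κ' r * D (l, r)) (fun r => κ' r * D (l, r)), ← hg]
  have hz : ∀ᵐ l ∂μ, κ l * g l = 0 := by
    have h := hV0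
    rw [hFub] at h
    have hnn : 0 ≤ fun l => κ l * (g l * g l) := fun l =>
      mul_nonneg (hκb l).1 (mul_nonneg (hg0 l) (hg0 l))
    have hint : Integrable (fun l => κ l * (g l * g l)) μ :=
      bdd_int _ _ (hκ.mul (hgm.mul hgm)) 1 fun l => mul1 (hκa l) (mul1 (hga l) (hga l))
    rw [integral_eq_zero_iff_of_nonneg hnn hint] at h
    filter_upwards [h] with l hl
    simp only [Pi.zero_apply] at hl
    rcases mul_eq_zero.mp hl with h1 | h1
    · rw [h1, zero_mul]
    · rcases mul_eq_zero.mp h1 with h2 | h2 <;> rw [h2, mul_zero]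
  have hfin : ∫ q, D q * (κ q.1 * κ' q.2) ∂(μ.prod ν) = 0 := by
    have hm : Measurable (fun q : L × R => D q * (κ q.1 * κ' q.2)) :=
      hD.mul ((hκ.comp measurable_fst).mul (hκ'.comp measurable_snd))
    rw [integral_prod _ (bdd_int _ _ hm 1 fun q => mul1 (hDa _) (mul1 (hκa _) (hκ'a _)))]
    have e1 : ∀ l, ∫ r, D (l, r) * (κ l * κ' r) ∂ν = κ l * g l := by
      intro l
      rw [hg, ← integral_const_mul]
      refine integral_congr_ae (Eventually.of_forall fun r => ?_)
      simp only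
      ring
    simp only [e1]
    rw [integral_congr_ae hz]
    simp
  have hnn2 : 0 ≤ fun q : L × R => D q * (κ q.1 * κ' q.2) := fun q =>
    mul_nonneg (hD01 q).1 (mul_nonneg (hκb _).1 (hκ'b _).1)
  have hint2 : Integrable (fun q : L × R => D q * (κ q.1 * κ' q.2)) (μ.prod ν) :=
    bdd_int _ _ (hD.mul ((hκ.comp measurable_fst).mul (hκ'.comp measurable_snd))) 1
      fun q => mul1 (hDa _) (mul1 (hκa _) (hκ'a _))
  rw [integral_eq_zero_iff_of_nonneg hnn2 hint2] at hfin
  filter_upwards [hfin] with q hq hqψ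
  simp only [Pi.zero_apply, hD1 q hqψ, one_mul] at hq
  exact hq

end Pool.Agent.W766.FD
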